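import Pool.Agent.N408.IB.Stm

/-!
# Project IB, leaf BAS1 (helper628)
-/

set_option autoImplicit false

open Real Set MeasureTheory IB408

namespace N628.IB.BAS1

theorem b_pos : 0 < b := by unfold b; norm_num

theorem b_le : b ≤ 1 / 1000000 := by unfold b; norm_num

theorem cube_sub {e x y : ℝ} (he : e ≤ 1 / 1000) (hx : |x - 1| ≤ e) (hy : |y - 1| ≤ e) :
    |x ^ 3 - y ^ 3| ≤ (301 / 100) * |x - y| := by
  rw [abs_le] at hx hy
  have h1 : x ^ 3 - y ^ 3 = (x ^ 2 + x * y + y ^ 2) * (x - y) := by ring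
  rw [h1, abs_mul]
  refine mul_le_mul_of_nonneg_right ?_ (abs_nonneg _)
  rw [abs_le]
  have hx1 : x ≤ 1001 / 1000 := by linarith
  have hx0 : 0 ≤ x := by linarith
  have hy1 : y ≤ 1001 / 1000 := by linarith
  have hy0 : 0 ≤ y := by linarith
  constructor
  · nlinarith [mul_nonneg hx0 hy0, mul_nonneg hx0 hx0, mul_nonneg hy0 hy0]
  · nlinarith [mul_le_mul hx1 hx1 hx0 (by norm_num : (0:ℝ) ≤ 1001 / 1000),
      mul_le_mul hy1 hy1 hy0 (by norm_num : (0:ℝ) ≤ 1001 / 1000),
      mul_le_mul hx1 hy1 hy0 (by norm_num : (0:ℝ) ≤ 1001 / 1000)]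

theorem sqrt_bd : 4 * √((52 / 10000) * b ^ 2) ≤ (2888 / 10000) * b := by
  have h : √((52 / 10000) * b ^ 2) ≤ (722 / 10000) * b := by
    rw [show (722 / 10000) * b = √(((722 / 10000) * b) ^ 2) by
      rw [Real.sqrt_sq (by have := b_pos; positivity)]]
    apply Real.sqrt_le_sqrt
    nlinarith [b_pos]
  linarith

theorem g_lip (x y a : ℝ) : |min |x| a - min |y| a| ≤ |x - y| := by
  refine (abs_min_sub_min_le_max _ _ _ _).trans (max_le (abs_abs_sub_abs_le x y) ?_)
  rw [sub_self, abs_zero]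
  exact abs_nonneg _

theorem sin_ge {ψ : ℝ} (hal0 : 0 < al) (hal1 : al ≤ 1) (hs : sin al = b) (h1 : al ≤ |ψ|)
    (h2 : |ψ| ≤ 2) : b ≤ |sin ψ| := by
  have hpi := Real.pi_gt_three
  have e : |sin ψ| = sin |ψ| := by
    rcases abs_cases ψ with ⟨h, h0⟩ | ⟨h, h0⟩
    · rw [h, abs_of_nonneg (Real.sin_nonneg_of_nonneg_of_le_pi h0 (by linarith))]
    · rw [h, Real.sin_neg, abs_of_nonpos]
      have := Real.sin_nonneg_of_nonneg_of_le_pi (x := -ψ) (by linarith) (by linarith)
      rw [Real.sin_neg] at this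
      linarith
  rw [e, ← hs]
  rcases le_total |ψ| (π / 2) with h | h
  · exact Real.sin_le_sin_of_le_of_le_pi_div_two (by linarith) h h1
  · rw [← Real.sin_pi_sub |ψ|]
    exact Real.sin_le_sin_of_le_of_le_pi_div_two (by linarith) (by linarith) (by linarith)

theorem t (h1 : S_L1) (h2 : S_L2) (h3 : S_ODD1) : IB408.S_BAS1 := by
  intro q hq
  obtain ⟨⟨hbal, hal, hsal, hcal, hc0, hc1, hc2, hc3⟩, hoc, hoce, hoc0, hoc1, hoc2, -⟩ := h3
  obtain ⟨hqc, hqe, hq0, hq1⟩ := hq
  have hb := b_pos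
  have hb1 := b_le
  have hal0 : 0 < al := hb.trans_le hbal
  have hal1 : al ≤ 1 := by linarith
  have hbb : b ^ 3 ≤ b ^ 2 / 1000000 := by
    have : b ^ 3 = b ^ 2 * b := by ring
    rw [this]
    nlinarith [sq_nonneg b]
  set e : ℝ := (52 / 10000) * b ^ 2 with he
  have hb2 : b ^ 2 ≤ 1 / 1000000 := by nlinarith
  have he0 : 0 ≤ e := by positivity
  have he1 : e ≤ 1 / 1000 := by rw [he]; linarith
  -- the functions hc
  have A : ∀ σ, σ = 1 ∨ σ = -1 → Continuous (hc q σ) ∧ (∀ ψ, |hc q σ ψ - 1| ≤ e) ∧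
      (∀ ψ, al ≤ |ψ| → |ψ| ≤ 2 → hc q σ ψ = 1) := by
    intro σ hσ
    have hσ1 : |σ| = 1 := by
      rcases hσ with rfl | rfl
      · exact abs_one
      · rw [abs_neg, abs_one]
    refine ⟨?_, ?_, ?_⟩
    · unfold hc
      exact (continuous_const.add (hqc.comp Real.continuous_sin)).add (hoc.const_mul σ)
    · intro ψ
      have : hc q σ ψ - 1 = q (sin ψ) + σ * oc ψ := by unfold hc; ring
      rw [this]
      refine (abs_add_le _ _).trans ?_
      rw [abs_mul, hσ1, one_mul, abs_of_nonneg (hoc0 ψ)]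
      have h5 := hq1 (sin ψ)
      have h6 := hoc1 ψ
      rw [he]
      nlinarith
    · intro ψ hψ1 hψ2
      have hs := sin_ge hal0 hal1 hsal hψ1 hψ2
      have hcs : cos ψ ≤ c := by
        rw [← Real.cos_abs ψ, ← hcal]
        exact Real.cos_le_cos_of_nonneg_of_le_pi hal0.le
          (by have := Real.pi_gt_three; linarith) hψ1
      unfold hc
      rw [hq0 _ hs, hoc2 _ hcs, mul_zero, add_zero, add_zero]
  -- the radial functions
  have B : ∀ σ, σ = 1 ∨ σ = -1 → Continuous (Leg (hc q σ)) ∧ (∀ θ, |Leg (hc q σ) θ - 1| ≤ e) ∧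
      (∀ x y, |Leg (hc q σ) x - Leg (hc q σ) y| ≤ (2888 / 10000) * b * |x - y|) := by
    intro σ hσ
    obtain ⟨a1, a2, a3⟩ := A σ hσ
    have a4 : ∀ ψ, |hc q σ ψ - 1| ≤ 1 / 10 := fun ψ => (a2 ψ).trans (by linarith)
    obtain ⟨-, -, c1, c2, -⟩ := h1 _ a1 a4
    obtain ⟨-, d2, -⟩ := h2 _ a1 a4
    refine ⟨c1, c2 e (by linarith) a2, fun x y => ?_⟩
    exact (d2 e he0 (by linarith) a2 x y).trans
      (mul_le_mul_of_nonneg_right sqrt_bd (abs_nonneg _))
  obtain ⟨B1, B2, B3⟩ := B 1 (Or.inl rfl)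
  obtain ⟨C1, C2, C3⟩ := B (-1) (Or.inr rfl)
  have P1 : Continuous (Pcap q) := by
    unfold Pcap
    exact ((B1.pow 3).add (C1.pow 3)).div_const 2
  have one1 : |(1 : ℝ) - 1| ≤ e := by rw [sub_self, abs_zero]; exact he0
  have P2 : ∀ θ, |Pcap q θ - 1| ≤ (16 / 1000) * b ^ 2 := by
    intro θ
    have k1 := cube_sub he1 (B2 θ) one1
    have k2 := cube_sub he1 (C2 θ) one1
    have k3 := B2 θ
    have k4 := C2 θ
    have : Pcap q θ - 1 = ((Leg (hc q 1) θ ^ 3 - 1 ^ 3) + (Leg (hc q (-1)) θ ^ 3 - 1 ^ 3)) / 2 := by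
      unfold Pcap; ring
    rw [this, abs_div, abs_of_pos (by norm_num : (0:ℝ) < 2), div_le_iff₀ (by norm_num)]
    refine (abs_add_le _ _).trans ?_
    rw [he] at k3 k4
    nlinarith [sq_nonneg b]
  have P3 : ∀ x y, |Pcap q x - Pcap q y| ≤ b * |x - y| := by
    intro x y
    have k1 := cube_sub he1 (B2 x) (B2 y)
    have k2 := cube_sub he1 (C2 x) (C2 y)
    have k3 := B3 x y
    have k4 := C3 x y
    have : Pcap q x - Pcap q y = ((Leg (hc q 1) x ^ 3 - Leg (hc q 1) y ^ 3) +
        (Leg (hc q (-1)) x ^ 3 - Leg (hc q (-1)) y ^ 3)) / 2 := by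
      unfold Pcap; ring
    rw [this, abs_div, abs_of_pos (by norm_num : (0:ℝ) < 2), div_le_iff₀ (by norm_num)]
    refine (abs_add_le _ _).trans ?_
    nlinarith [mul_nonneg hb.le (abs_nonneg (x - y))]
  -- the integrand
  set f : ℝ → ℝ := fun θ => (Pcap q θ - 1) * sin θ with hf
  have hfc : Continuous f := (P1.sub continuous_const).mul Real.continuous_sin
  have hfi : ∀ x y, IntervalIntegrable f volume x y := fun x y => hfc.intervalIntegrable x y
  have hsin : ∀ x, 0 ≤ x → x ≤ al → 0 ≤ sin x ∧ sin x ≤ b := by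
    intro x hx0 hx1
    have hpi := Real.pi_gt_three
    refine ⟨Real.sin_nonneg_of_nonneg_of_le_pi hx0 (by linarith), ?_⟩
    rw [← hsal]
    exact Real.sin_le_sin_of_le_of_le_pi_div_two (by linarith) (by linarith) hx1
  set g : ℝ → ℝ := fun γ => min |γ| al with hg
  have hg0 : ∀ γ, 0 ≤ g γ := fun γ => le_min (abs_nonneg _) hal0.le
  have hg1 : ∀ γ, g γ ≤ al := fun γ => min_le_right _ _
  have hgc : Continuous g := continuous_abs.min continuous_const
  have hPint : ∀ γ, Pint q γ = ∫ θ in (g γ)..al, f θ := fun γ => rfl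
  -- bound of the integral
  have Q1 : ∀ γ, |Pint q γ| ≤ (16 / 1000) * b ^ 2 * (1 - c) := by
    intro γ
    rw [hPint]
    have k1 : |∫ θ in (g γ)..al, f θ| ≤ ∫ θ in (g γ)..al, (16 / 1000) * b ^ 2 * sin θ := by
      refine (intervalIntegral.abs_integral_le_integral_abs (hg1 γ)).trans ?_
      refine intervalIntegral.integral_mono_on (hg1 γ) (hfc.abs.intervalIntegrable _ _)
        ((Real.continuous_sin.const_mul _).intervalIntegrable _ _) ?_
      intro x hx
      have hx' := hsin x ((hg0 γ).trans hx.1) hx.2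
      rw [hf]
      simp only
      rw [abs_mul, abs_of_nonneg hx'.1]
      exact mul_le_mul_of_nonneg_right (P2 x) hx'.1
    refine k1.trans ?_
    rw [intervalIntegral.integral_const_mul, integral_sin, hcal]
    refine mul_le_mul_of_nonneg_left ?_ (by positivity)
    have := Real.cos_le_one (g γ)
    linarith
  have hb4 : b ^ 4 = b ^ 2 * b ^ 2 := by ring
  have Q2 : ∀ γ, |Pint q γ| ≤ (9 / 1000) * b ^ 4 := by
    intro γ
    refine (Q1 γ).trans ?_
    rw [hb4]
    nlinarith [mul_nonneg (sq_nonneg b) (sq_nonneg b), mul_le_mul_of_nonneg_left hc3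
      (sq_nonneg b)]
  have Q3 : Continuous (Pint q) := by
    have : Pint q = fun γ => - ∫ θ in al..(g γ), f θ := by
      funext γ
      rw [hPint, intervalIntegral.integral_symm]
    rw [this]
    exact ((intervalIntegral.continuous_primitive hfi al).comp hgc).neg
  have Q4 : ∀ x y, |Pint q x - Pint q y| ≤ (16 / 1000) * b ^ 3 * |x - y| := by
    intro x y
    rw [hPint, hPint]
    have : (∫ θ in (g x)..al, f θ) - ∫ θ in (g y)..al, f θ = ∫ θ in (g x)..(g y), f θ := by
      rw [← intervalIntegral.integral_add_adjacent_intervals (hfi (g x) (g y)) (hfi (g y) al)]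
      ring
    rw [this, ← Real.norm_eq_abs]
    have k1 : ‖∫ θ in (g x)..(g y), f θ‖ ≤ ((16 / 1000) * b ^ 3) * |g y - g x| := by
      refine intervalIntegral.norm_integral_le_of_norm_le_const ?_
      intro z hz
      have hz' : z ∈ Set.uIcc (g x) (g y) := Set.uIoc_subset_uIcc hz
      have hz0 : 0 ≤ z := by
        have := hz'.1
        exact (le_min (hg0 x) (hg0 y)).trans this
      have hz1 : z ≤ al := by
        have := hz'.2
        exact this.trans (max_le (hg1 x) (hg1 y))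
      have hz2 := hsin z hz0 hz1
      rw [hf]
      simp only
      rw [Real.norm_eq_abs, abs_mul, abs_of_nonneg hz2.1]
      have hb3 : (16 / 1000) * b ^ 3 = (16 / 1000) * b ^ 2 * b := by ring
      rw [hb3]
      exact mul_le_mul (P2 z) hz2.2 hz2.1 (by positivity)
    refine k1.trans (mul_le_mul_of_nonneg_left ?_ (by positivity))
    rw [abs_sub_comm]
    exact g_lip x y al
  -- the function st
  have hb4s : b ^ 4 ≤ 1 / 1000000 := by
    rw [hb4]
    nlinarith [sq_nonneg b]
  have hcosg : ∀ γ, c ≤ cos (g γ) ∧ cos (g γ) ≤ 1 := by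
    intro γ
    refine ⟨?_, Real.cos_le_one _⟩
    rw [← hcal]
    exact Real.cos_le_cos_of_nonneg_of_le_pi (hg0 γ)
      (by have := Real.pi_gt_three; linarith) (hg1 γ)
  have hcge : 999 / 1000 ≤ c := by linarith
  have hden : ∀ γ, 99 / 100 ≤ cos (g γ) + Pint q γ := by
    intro γ
    have k1 := (abs_le.1 (Q2 γ)).1
    have k2 := (hcosg γ).1
    linarith
  have hst : ∀ γ, st q γ = - Pint q γ / (cos (g γ) + Pint q γ) := by
    intro γ
    have h := hden γ
    have h' : cos (g γ) + Pint q γ ≠ 0 := by linarith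
    have : st q γ = cos (g γ) / (cos (g γ) + Pint q γ) - 1 := rfl
    rw [this]
    field_simp
    ring
  have S1 : Continuous (st q) := by
    have : st q = fun γ => - Pint q γ / (cos (g γ) + Pint q γ) := funext hst
    rw [this]
    refine Q3.neg.div ((Real.continuous_cos.comp hgc).add Q3) ?_
    intro γ
    have h := hden γ
    exact ne_of_gt (lt_of_lt_of_le (by norm_num) h)
  have S2 : ∀ γ, |st q γ| ≤ b ^ 4 / 100 := by
    intro γ
    have h := hden γ
    rw [hst, abs_div, abs_neg, abs_of_pos (by linarith : 0 < cos (g γ) + Pint q γ),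
      div_le_iff₀ (by linarith)]
    refine (Q2 γ).trans ?_
    nlinarith [mul_nonneg (sq_nonneg b) (sq_nonneg b)]
  have S3 : ∀ γ, st q (-γ) = st q γ := by
    intro γ
    unfold st Pint
    rw [abs_neg]
  have S4 : ∀ γ, al ≤ |γ| → st q γ = 0 := by
    intro γ hγ
    have h5 : g γ = al := min_eq_right hγ
    rw [hst, hPint, h5, intervalIntegral.integral_same, neg_zero, zero_div]
  have S5 : ∀ x y, |st q x - st q y| ≤ b ^ 3 * |x - y| := by
    intro x y
    have d1 := hden x
    have d2 := hden y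
    have n1 : cos (g x) + Pint q x ≠ 0 := by linarith
    have n2 : cos (g y) + Pint q y ≠ 0 := by linarith
    have e1 : st q x - st q y = (cos (g x) * (Pint q y - Pint q x) +
        Pint q x * (cos (g x) - cos (g y))) /
        ((cos (g x) + Pint q x) * (cos (g y) + Pint q y)) := by
      rw [hst, hst]
      field_simp
      ring
    have k1 : |cos (g x) * (Pint q y - Pint q x)| ≤ (16 / 1000) * b ^ 3 * |x - y| := by
      rw [abs_mul]
      have k2 : |cos (g x)| ≤ 1 := Real.abs_cos_le_one _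
      have k3 := Q4 y x
      rw [abs_sub_comm y x] at k3
      calc |cos (g x)| * |Pint q y - Pint q x| ≤ 1 * ((16 / 1000) * b ^ 3 * |x - y|) :=
            mul_le_mul k2 k3 (abs_nonneg _) zero_le_one
        _ = _ := one_mul _
    have k4 : |Pint q x * (cos (g x) - cos (g y))| ≤ (9 / 1000) * b ^ 3 * |x - y| := by
      rw [abs_mul]
      have k5 : |cos (g x) - cos (g y)| ≤ |x - y| := by
        have k6 : |cos (g x) - cos (g y)| ≤ |g x - g y| := by
          have := Real.lipschitzWith_cos.dist_le_mul (g x) (g y)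
          rw [Real.dist_eq, Real.dist_eq] at this
          simpa using this
        exact k6.trans (g_lip x y al)
      have k7 : (9 / 1000) * b ^ 4 ≤ (9 / 1000) * b ^ 3 := by
        have : b ^ 4 = b ^ 3 * b := by ring
        rw [this]
        have hb3 : 0 ≤ b ^ 3 := by positivity
        nlinarith
      exact mul_le_mul ((Q2 x).trans k7) k5 (abs_nonneg _) (by positivity)
    have k8 : 98 / 100 ≤ (cos (g x) + Pint q x) * (cos (g y) + Pint q y) := by nlinarith
    rw [e1, abs_div, abs_of_pos (by linarith : 0 < (cos (g x) + Pint q x) *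
      (cos (g y) + Pint q y)), div_le_iff₀ (by linarith)]
    refine (abs_add_le _ _).trans ((add_le_add k1 k4).trans ?_)
    have k9 : 0 ≤ b ^ 3 * |x - y| := by positivity
    nlinarith
  exact ⟨A, P1, P2, P3, S1, S2, S3, S4, S5, Q2, Q3⟩

end N628.IB.BAS1
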